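import Pool.Agent.H3F0.B

/-!
# MP_f0be4b_lc: suprema of incomparable chains

There is a set `C` of reals, of the cardinality of the continuum, such that the chains `C \ P`,
`P` a finite subset of `C`, are ordered by embeddability exactly as the sets `P` are ordered by
reverse inclusion, and `C \ (P ∩ Q)` is always a supremum of `C \ P` and `C \ Q`.
-/

set_option autoImplicit false

universe u

namespace Pool.Agent.Results.MP_f0be4b_lc.ContinuumManySuprema

open Set Cardinal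

/-- The chain `C` is a supremum of the chains `A` and `B` in the quasi-order of embeddability
(tested against all chains `X : Type u`). -/
def IsSupremum (A B C : Type) [LinearOrder A] [LinearOrder B] [LinearOrder C] : Prop :=
  Nonempty (A ↪o C) ∧ Nonempty (B ↪o C) ∧
    ∀ (X : Type u) [LinearOrder X], Nonempty (A ↪o X) → Nonempty (B ↪o X) → Nonempty (C ↪o X)

/-- There is a set `C` of reals of the cardinality of the continuum such that (1) for finite
`P, Q ⊆ C` the chain `C \ P` embeds in `C \ Q` exactly when `Q ⊆ P`; (2) for finite `P, Q ⊆ C` the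
chain `C \ (P ∩ Q)` is a supremum of `C \ P` and `C \ Q`; (3) in particular the chains `C \ {p}`,
`p ∈ C`, are pairwise incomparable and `C` is a supremum of any two of them. -/
theorem result : ∃ C : Set ℝ, #C = 𝔠 ∧
    (∀ P Q : Finset ℝ, (P : Set ℝ) ⊆ C → (Q : Set ℝ) ⊆ C →
      (Nonempty ((C \ P : Set ℝ) ↪o (C \ Q : Set ℝ)) ↔ Q ⊆ P)) ∧
    (∀ P Q : Finset ℝ, (P : Set ℝ) ⊆ C → (Q : Set ℝ) ⊆ C →
      IsSupremum.{u} (C \ P : Set ℝ) (C \ Q : Set ℝ) (C \ (P ∩ Q : Set ℝ) : Set ℝ)) ∧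
    (∀ p ∈ C, ∀ q ∈ C, p ≠ q →
      IsEmpty ((C \ {p} : Set ℝ) ↪o (C \ {q} : Set ℝ)) ∧
      IsSupremum.{u} (C \ {p} : Set ℝ) (C \ {q} : Set ℝ) C) := by
  classical
  obtain ⟨E, h1, h2, h4, h3⟩ := H3F0.exE'
  have hinf : ∀ P : Finset ℝ, ((E ∩ Icc 0 1) \ (P : Set ℝ)).Nonempty := fun P => by
    have : (E ∩ Icc 0 1).Infinite := by
      rw [← Set.infinite_coe_iff, infinite_iff, h4]
      exact aleph0_le_continuum
    exact (this.sdiff P.finite_toSet).nonempty
  have incl : ∀ {s t : Set ℝ}, s ⊆ t → Nonempty (s ↪o t) := fun h =>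
    ⟨.ofStrictMono (inclusion h) fun _ _ => id⟩
  have A : ∀ P Q : Finset ℝ, (P : Set ℝ) ⊆ E ∩ Icc 0 1 → (Q : Set ℝ) ⊆ E ∩ Icc 0 1 →
      (Nonempty (((E ∩ Icc 0 1) \ P : Set ℝ) ↪o ((E ∩ Icc 0 1) \ Q : Set ℝ)) ↔ Q ⊆ P) := by
    intro P Q hP hQ
    refine ⟨fun h => ?_, fun h => incl (sdiff_subset_sdiff_right (Finset.coe_subset.2 h))⟩
    obtain ⟨f, hf⟩ := (H3F0.emb (hinf P)).1 h
    intro q hq
    by_contra hqP
    have hdom : q ∈ (E ∩ Icc 0 1) \ (P : Set ℝ) := ⟨hQ hq, hqP⟩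
    have : (f q : ℝ) = q := H3F0.rigid h3 (f := fun x => (f x : ℝ))
      (fun x hx y hy hxy => hf hx hy hxy) (fun x _ => (f x).2.1) q hdom
    have h5 := (f q).2.2
    rw [this] at h5
    exact h5 hq
  have B : ∀ P Q : Finset ℝ, IsSupremum.{u} ((E ∩ Icc 0 1) \ P : Set ℝ)
      ((E ∩ Icc 0 1) \ Q : Set ℝ) ((E ∩ Icc 0 1) \ (P ∩ Q : Set ℝ) : Set ℝ) := by
    intro P Q
    refine ⟨incl (sdiff_subset_sdiff_right inter_subset_left),
      incl (sdiff_subset_sdiff_right inter_subset_right), fun X _ ha hb => ?_⟩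
    obtain ⟨a, ha⟩ := (H3F0.emb (hinf P)).1 ha
    obtain ⟨b, hb⟩ := (H3F0.emb (hinf Q)).1 hb
    have hne : ((E ∩ Icc 0 1) \ (P ∩ Q : Set ℝ)).Nonempty :=
      (hinf P).mono (sdiff_subset_sdiff_right inter_subset_left)
    exact (H3F0.emb hne).2 (H3F0.sup_aux h2 ha hb)
  refine ⟨E ∩ Icc 0 1, h4, A, fun P Q _ _ => B P Q, fun p hp q hq hpq => ⟨?_, ?_⟩⟩
  · rw [← not_nonempty_iff]
    intro h
    have := (A {p} {q} (by simpa using hp) (by simpa using hq)).1
      (by rwa [Finset.coe_singleton, Finset.coe_singleton])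
    simp only [Finset.subset_singleton_iff, Finset.singleton_ne_empty, false_or,
      Finset.singleton_inj] at this
    exact hpq this.symm
  · have := B {p} {q}
    have e : (({p} : Finset ℝ) ∩ ({q} : Finset ℝ) : Set ℝ) = ∅ := by
      ext x
      simp only [Finset.coe_singleton, mem_inter_iff, mem_singleton_iff, mem_empty_iff_false,
        iff_false, not_and]
      rintro rfl
      exact hpq
    rw [e, sdiff_empty, Finset.coe_singleton, Finset.coe_singleton] at this
    exact this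

end Pool.Agent.Results.MP_f0be4b_lc.ContinuumManySuprema
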